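import Pool.Agent.Helper44.GH.Stmts

open Finset MeasureTheory Filter Topology Matrix
open scoped ENNReal ContDiff

namespace Pool.Agent.Helper44.GH

open Pool.Agent.Helper44.GF Pool.Agent.Helper44.GN

/-- Second differences of a function with second derivative at least `m`. -/
theorem gpo_sd (g g1 D : ℝ → ℝ) (hg : ∀ x, HasDerivAt g (g1 x) x) (hg1 : ∀ x, HasDerivAt g1 (D x) x)
    (t k m : ℝ) (hm : ∀ x, |x - t| ≤ |k| → m ≤ D x) :
    m * k ^ 2 ≤ g (t + k) + g (t - k) - 2 * g t := by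
  have key : ∀ k : ℝ, 0 ≤ k → (∀ x, |x - t| ≤ k → m ≤ D x) →
      m * k ^ 2 ≤ g (t + k) + g (t - k) - 2 * g t := by
    intro k hk hm
    have hc : ConvexOn ℝ (Set.Icc (t - k) (t + k)) (fun x => g x - m / 2 * (x - t) ^ 2) := by
      have hd1 : ∀ x, HasDerivAt (fun x => g x - m / 2 * (x - t) ^ 2) (g1 x - m * (x - t)) x := by
        intro x
        have h1 : HasDerivAt (fun x : ℝ => x - t) 1 x := (hasDerivAt_id x).sub_const t
        have h2 := (hg x).sub ((h1.pow 2).const_mul (m / 2))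
        refine h2.congr_deriv ?_
        simp
        ring
      have hd2 : ∀ x, HasDerivAt (fun x => g1 x - m * (x - t)) (D x - m) x := by
        intro x
        have h1 : HasDerivAt (fun x : ℝ => x - t) 1 x := (hasDerivAt_id x).sub_const t
        have h2 := (hg1 x).sub (h1.const_mul m)
        refine h2.congr_deriv ?_
        ring
      apply convexOn_of_hasDerivWithinAt2_nonneg (convex_Icc _ _)
        (f' := fun x => g1 x - m * (x - t)) (f'' := fun x => D x - m)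
      · exact fun x _ => (hd1 x).continuousAt.continuousWithinAt
      · exact fun x _ => (hd1 x).hasDerivWithinAt
      · exact fun x _ => (hd2 x).hasDerivWithinAt
      · intro x hx
        rw [interior_Icc] at hx
        have : |x - t| ≤ k := abs_le.2 ⟨by linarith [hx.1], by linarith [hx.2]⟩
        linarith [hm x this]
    have h1 : t - k ∈ Set.Icc (t - k) (t + k) := ⟨le_refl _, by linarith⟩
    have h2 : t + k ∈ Set.Icc (t - k) (t + k) := ⟨by linarith, le_refl _⟩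
    have h3 := hc.2 h1 h2 (show (0 : ℝ) ≤ 1 / 2 by norm_num) (show (0 : ℝ) ≤ 1 / 2 by norm_num)
      (by norm_num)
    simp only [smul_eq_mul] at h3
    have h4 : (1 / 2 : ℝ) * (t - k) + 1 / 2 * (t + k) = t := by ring
    rw [h4] at h3
    nlinarith [h3]
  rcases le_total 0 k with hk | hk
  · exact key k hk (by rwa [abs_of_nonneg hk] at hm)
  · have := key (-k) (by linarith) (by rwa [abs_of_nonpos hk] at hm)
    rw [neg_sq, sub_neg_eq_add, ← sub_eq_add_neg] at this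
    linarith

theorem gpo_exp1 (r t : ℝ) (hr : 0 < r) : |t| * Real.exp (-(t ^ 2 * r)) ≤ 1 + 1 / r := by
  have h0 : 0 ≤ t ^ 2 * r := by positivity
  have h1 : Real.exp (-(t ^ 2 * r)) ≤ 1 := Real.exp_le_one_iff.2 (by linarith)
  have hr' : 0 < 1 / r := by positivity
  have hx : t ^ 2 * Real.exp (-(t ^ 2 * r)) ≤ 1 / r := by
    have h2 : t ^ 2 * r ≤ Real.exp (t ^ 2 * r) := by linarith [Real.add_one_le_exp (t ^ 2 * r)]
    have h3 : t ^ 2 * r * Real.exp (-(t ^ 2 * r)) ≤ 1 := by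
      rw [Real.exp_neg]
      rw [mul_inv_le_iff₀ (Real.exp_pos _), one_mul]
      exact h2
    rw [le_div_iff₀ hr]
    linarith
  have he : 0 < Real.exp (-(t ^ 2 * r)) := Real.exp_pos _
  rcases le_total |t| 1 with h | h
  · nlinarith [abs_nonneg t]
  · have h5 : |t| ≤ t ^ 2 := by
      rw [← sq_abs]
      nlinarith
    nlinarith [mul_le_mul_of_nonneg_right h5 he.le]

theorem gpo_exp3 (r t : ℝ) (hr : 0 < r) : |t| ^ 3 * Real.exp (-(t ^ 2 * r)) ≤ 1 + 2 / r ^ 2 := by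
  have h0 : 0 ≤ t ^ 2 * r := by positivity
  have h1 : Real.exp (-(t ^ 2 * r)) ≤ 1 := Real.exp_le_one_iff.2 (by linarith)
  have hr' : 0 < 2 / r ^ 2 := by positivity
  have he : 0 < Real.exp (-(t ^ 2 * r)) := Real.exp_pos _
  have hx : t ^ 4 * Real.exp (-(t ^ 2 * r)) ≤ 2 / r ^ 2 := by
    have h2 : (t ^ 2 * r) ^ 2 / 2 ≤ Real.exp (t ^ 2 * r) := by
      have := Real.quadratic_le_exp_of_nonneg h0
      linarith
    have h3 : (t ^ 2 * r) ^ 2 / 2 * Real.exp (-(t ^ 2 * r)) ≤ 1 := by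
      rw [Real.exp_neg]
      rw [mul_inv_le_iff₀ (Real.exp_pos _), one_mul]
      exact h2
    rw [le_div_iff₀ (by positivity)]
    nlinarith
  rcases le_total |t| 1 with h | h
  · have h6 : |t| ^ 3 ≤ 1 := pow_le_one₀ (abs_nonneg t) h
    nlinarith [pow_nonneg (abs_nonneg t) 3]
  · have h5 : |t| ^ 3 ≤ t ^ 4 := by
      have : t ^ 4 = |t| ^ 4 := by
        rw [← abs_pow]
        exact (abs_of_nonneg (by positivity)).symm
      rw [this]
      exact pow_le_pow_right₀ h (by norm_num)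
    nlinarith [mul_le_mul_of_nonneg_right h5 he.le]

/-- The activity as a function of `t`. -/
noncomputable def gpo_b (r z t : ℝ) : ℝ :=
  z * Real.exp (-(t ^ 2 * r)) / (1 + z * Real.exp (-(t ^ 2 * r)))

theorem gpo_bd (r z : ℝ) (hz : 0 < z) (t : ℝ) :
    HasDerivAt (gpo_b r z) (-(2 * t * r) * gpo_b r z t * (1 - gpo_b r z t)) t := by
  have h1 : HasDerivAt (fun t : ℝ => -(t ^ 2 * r)) (-(2 * t * r)) t := by
    have := ((hasDerivAt_pow 2 t).mul_const r).neg
    refine this.congr_deriv ?_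
    simp
  have h2 : HasDerivAt (fun t : ℝ => z * Real.exp (-(t ^ 2 * r)))
      (z * (Real.exp (-(t ^ 2 * r)) * (-(2 * t * r)))) t := h1.exp.const_mul z
  have hp : (0 : ℝ) < 1 + z * Real.exp (-(t ^ 2 * r)) := by positivity
  have h3 := h2.div (h2.const_add 1) hp.ne'
  refine h3.congr_deriv ?_
  unfold gpo_b
  field_simp
  ring

theorem gpo_b01 (r z : ℝ) (hz : 0 < z) (t : ℝ) : 0 ≤ gpo_b r z t ∧ gpo_b r z t ≤ 1 ∧
    gpo_b r z t ≤ z * Real.exp (-(t ^ 2 * r)) := by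
  have hp : (0 : ℝ) < z * Real.exp (-(t ^ 2 * r)) := by positivity
  have hp1 : (0 : ℝ) < 1 + z * Real.exp (-(t ^ 2 * r)) := by positivity
  unfold gpo_b
  refine ⟨by positivity, ?_, ?_⟩
  · rw [div_le_one hp1]
    linarith
  · rw [div_le_iff₀ hp1]
    nlinarith

/-- The contribution of an atom to `Dg`. -/
noncomputable def gpo_q (r z t : ℝ) : ℝ :=
  2 * r * gpo_b r z t - 4 * t ^ 2 * r ^ 2 * (gpo_b r z t * (1 - gpo_b r z t))

theorem gpo_qd (r z : ℝ) (hr : 0 < r) (hz : 0 < z) (t : ℝ) :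
    ∃ D, HasDerivAt (gpo_q r z) D t ∧
      |D| ≤ z * (12 * r ^ 2 * (1 + 1 / r) + 8 * r ^ 3 * (1 + 2 / r ^ 2)) := by
  have hb := gpo_bd r z hz t
  have h1 := hb.const_mul (2 * r)
  have h2 := hb.mul (hb.const_sub 1)
  have h3 : HasDerivAt (fun t : ℝ => 4 * t ^ 2 * r ^ 2) (8 * t * r ^ 2) t := by
    have := ((hasDerivAt_pow 2 t).const_mul 4).mul_const (r ^ 2)
    refine this.congr_deriv ?_
    push_cast
    ring
  have h4 := h1.sub (h3.mul h2)
  refine ⟨_, h4, ?_⟩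
  obtain ⟨b0, b1, b2⟩ := gpo_b01 r z hz t
  set b := gpo_b r z t with hbdef
  have e1 := gpo_exp1 r t hr
  have e3 := gpo_exp3 r t hr
  have heq : 2 * r * (-(2 * t * r) * b * (1 - b)) -
      (8 * t * r ^ 2 * (b * (1 - b)) + 4 * t ^ 2 * r ^ 2 *
        (-(2 * t * r) * b * (1 - b) * (1 - b) + b * (-(-(2 * t * r) * b * (1 - b))))) =
      -(12 * r ^ 2) * (t * (b * (1 - b))) + 8 * r ^ 3 * (t ^ 3 * (b * (1 - b) * (1 - 2 * b))) := by
    ring
  have hab : |t * (b * (1 - b))| ≤ |t| * (z * Real.exp (-(t ^ 2 * r))) := by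
    rw [abs_mul]
    apply mul_le_mul_of_nonneg_left _ (abs_nonneg t)
    rw [abs_of_nonneg (mul_nonneg b0 (by linarith))]
    nlinarith
  have hab3 : |t ^ 3 * (b * (1 - b) * (1 - 2 * b))| ≤ |t| ^ 3 * (z * Real.exp (-(t ^ 2 * r))) := by
    rw [abs_mul, abs_pow]
    apply mul_le_mul_of_nonneg_left _ (by positivity)
    rw [abs_mul, abs_of_nonneg (mul_nonneg b0 (by linarith : (0 : ℝ) ≤ 1 - b))]
    have h5 : |1 - 2 * b| ≤ 1 := abs_le.2 ⟨by linarith, by linarith⟩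
    have h6 : b * (1 - b) ≤ b := by nlinarith
    calc b * (1 - b) * |1 - 2 * b| ≤ b * 1 := by
          apply mul_le_mul h6 h5 (abs_nonneg _) b0
      _ ≤ z * Real.exp (-(t ^ 2 * r)) := by linarith
  have hfin : |(-(12 * r ^ 2) * (t * (b * (1 - b))) +
      8 * r ^ 3 * (t ^ 3 * (b * (1 - b) * (1 - 2 * b))))| ≤
      z * (12 * r ^ 2 * (1 + 1 / r) + 8 * r ^ 3 * (1 + 2 / r ^ 2)) := by
    have t1 : |(-(12 * r ^ 2) * (t * (b * (1 - b))))| ≤ 12 * r ^ 2 * (z * (1 + 1 / r)) := by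
      rw [abs_mul, abs_neg, abs_of_nonneg (by positivity : (0 : ℝ) ≤ 12 * r ^ 2)]
      apply mul_le_mul_of_nonneg_left _ (by positivity)
      calc |t * (b * (1 - b))| ≤ |t| * (z * Real.exp (-(t ^ 2 * r))) := hab
        _ = z * (|t| * Real.exp (-(t ^ 2 * r))) := by ring
        _ ≤ z * (1 + 1 / r) := mul_le_mul_of_nonneg_left e1 hz.le
    have t3 : |8 * r ^ 3 * (t ^ 3 * (b * (1 - b) * (1 - 2 * b)))| ≤
        8 * r ^ 3 * (z * (1 + 2 / r ^ 2)) := by
      rw [abs_mul, abs_of_nonneg (by positivity : (0 : ℝ) ≤ 8 * r ^ 3)]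
      apply mul_le_mul_of_nonneg_left _ (by positivity)
      calc |t ^ 3 * (b * (1 - b) * (1 - 2 * b))| ≤ |t| ^ 3 * (z * Real.exp (-(t ^ 2 * r))) := hab3
        _ = z * (|t| ^ 3 * Real.exp (-(t ^ 2 * r))) := by ring
        _ ≤ z * (1 + 2 / r ^ 2) := mul_le_mul_of_nonneg_left e3 hz.le
    calc _ ≤ _ := abs_add_le _ _
      _ ≤ 12 * r ^ 2 * (z * (1 + 1 / r)) + 8 * r ^ 3 * (z * (1 + 2 / r ^ 2)) := add_le_add t1 t3
      _ = _ := by ring
  rw [← heq] at hfin
  exact hfin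

theorem gpo_qlip (r z : ℝ) (hr : 0 < r) (hz : 0 < z) (x t : ℝ) :
    gpo_q r z t - z * (12 * r ^ 2 * (1 + 1 / r) + 8 * r ^ 3 * (1 + 2 / r ^ 2)) * |x - t| ≤
      gpo_q r z x := by
  choose D hD hDb using gpo_qd r z hr hz
  have := Convex.norm_image_sub_le_of_norm_hasDerivWithin_le (f := gpo_q r z) (f' := D)
    (s := Set.univ) (C := z * (12 * r ^ 2 * (1 + 1 / r) + 8 * r ^ 3 * (1 + 2 / r ^ 2)))
    (fun x _ => (hD x).hasDerivWithinAt) (fun x _ => hDb x) convex_univ (Set.mem_univ t)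
    (Set.mem_univ x)
  rw [Real.norm_eq_abs, Real.norm_eq_abs] at this
  have h2 := (abs_le.1 this).1
  linarith

theorem gpo_Dg {Y : Type} [Fintype Y] (δ : ℝ) (r z : Y → ℝ) (t : ℝ) :
    Dg δ r z t = 2 * δ + ∑ y, gpo_q (r y) (z y) t := by
  unfold Dg ld ldd gpo_q gpo_b bz
  rw [mul_add, Finset.mul_sum, Finset.mul_sum, add_sub_assoc, ← Finset.sum_sub_distrib]
  congr 1
  refine Finset.sum_congr rfl fun y _ => ?_
  ring

theorem st_GPO (hS : ST_SLV) : ST_GPO := by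
  intro Y _ s ζ δ r z hM
  have hS' := hS Y s ζ δ r z hM
  have hg : ∀ x, HasDerivAt (gg δ r z) (2 * x * ld δ r z (x ^ 2)) x := by
    intro x
    have h1 := (hS' (x ^ 2) (sq_nonneg x)).1
    have h2 : HasDerivAt (fun x : ℝ => x ^ 2) (2 * x) x := by
      refine (hasDerivAt_pow 2 x).congr_deriv ?_
      simp
    have h3 := HasDerivAt.comp (h := fun x : ℝ => x ^ 2) x h1 h2
    refine h3.congr_deriv ?_
    ring
  have hg1 : ∀ x, HasDerivAt (fun x => 2 * x * ld δ r z (x ^ 2)) (Dg δ r z x) x := by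
    intro x
    have h1 := (hS' (x ^ 2) (sq_nonneg x)).2.1
    have h2 : HasDerivAt (fun x : ℝ => x ^ 2) (2 * x) x := by
      refine (hasDerivAt_pow 2 x).congr_deriv ?_
      simp
    have h3 := HasDerivAt.comp (h := fun x : ℝ => x ^ 2) x h1 h2
    have h4 : HasDerivAt (fun x : ℝ => 2 * x) 2 x := by
      refine ((hasDerivAt_id x).const_mul 2).congr_deriv ?_
      ring
    have h5 := h4.mul h3
    refine h5.congr_deriv ?_
    unfold Dg
    simp only [Function.comp]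
    ring
  have hD1 : ∀ t, 4 / 3 * δ ≤ Dg δ r z t := by
    intro t
    obtain ⟨_, _, a1, _, a3, a4, a5, _, _, _⟩ := hS' (t ^ 2) (sq_nonneg t)
    unfold Dg
    have : t ^ 2 * ldd r z (t ^ 2) ≤ t ^ 2 * tz r z (t ^ 2) :=
      mul_le_mul_of_nonneg_left a4 (sq_nonneg t)
    nlinarith
  have hlip : ∀ x t, Dg δ r z t - (∑ y, z y * (12 * r y ^ 2 * (1 + 1 / r y) +
      8 * r y ^ 3 * (1 + 2 / r y ^ 2))) * |x - t| ≤ Dg δ r z x := by
    intro x t
    rw [gpo_Dg, gpo_Dg, Finset.sum_mul]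
    have : ∑ y, (gpo_q (r y) (z y) t - z y * (12 * r y ^ 2 * (1 + 1 / r y) +
        8 * r y ^ 3 * (1 + 2 / r y ^ 2)) * |x - t|) ≤ ∑ y, gpo_q (r y) (z y) x :=
      Finset.sum_le_sum fun y _ => gpo_qlip (r y) (z y) (hM.r0 y) (hM.z0 y) x t
    rw [Finset.sum_sub_distrib] at this
    linarith
  refine ⟨?_, ?_, hD1, ?_, ?_, ?_, ?_⟩
  · exact continuous_iff_continuousAt.2 fun x => (hg x).continuousAt
  · have : Dg δ r z = fun t => 2 * δ + ∑ y, gpo_q (r y) (z y) t := by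
      funext t
      exact gpo_Dg δ r z t
    rw [this]
    refine continuous_const.add (continuous_finsetSum _ fun y _ => ?_)
    refine continuous_iff_continuousAt.2 fun x => ?_
    obtain ⟨D, hD, _⟩ := gpo_qd (r y) (z y) (hM.r0 y) (hM.z0 y) x
    exact hD.continuousAt
  · intro t
    obtain ⟨_, _, a1, _, a3, a4, a5, _, _, _⟩ := hS' (t ^ 2) (sq_nonneg t)
    unfold Dg
    have : t ^ 2 * ldd r z (t ^ 2) ≤ t ^ 2 * tz r z (t ^ 2) :=
      mul_le_mul_of_nonneg_left a4 (sq_nonneg t)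
    nlinarith [hM.d0]
  · intro t
    exact (hS' (t ^ 2) (sq_nonneg t)).2.2.2.2.2.2.2.1
  · intro t k
    exact gpo_sd _ _ _ hg hg1 t k _ fun x _ => hD1 x
  · refine ⟨∑ y, z y * (12 * r y ^ 2 * (1 + 1 / r y) + 8 * r y ^ 3 * (1 + 2 / r y ^ 2)), ?_, ?_⟩
    · refine Finset.sum_nonneg fun y _ => ?_
      have := hM.r0 y
      have := hM.z0 y
      positivity
    · intro t k
      have h1 := gpo_sd _ _ _ hg hg1 t k (Dg δ r z t - (∑ y, z y * (12 * r y ^ 2 * (1 + 1 / r y) +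
        8 * r y ^ 3 * (1 + 2 / r y ^ 2))) * |k|) (by
          intro x hx
          refine le_trans ?_ (hlip x t)
          have h0 : 0 ≤ ∑ y, z y * (12 * r y ^ 2 * (1 + 1 / r y) +
              8 * r y ^ 3 * (1 + 2 / r y ^ 2)) := by
            refine Finset.sum_nonneg fun y _ => ?_
            have := hM.r0 y
            have := hM.z0 y
            positivity
          nlinarith)
      have h2 : |k| ^ 3 = |k| * k ^ 2 := by
        rw [← sq_abs k]
        ring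
      rw [h2]
      linarith

end Pool.Agent.Helper44.GH
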